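import Pool.Agent.Helper50.BL.Stmts
import Pool.Agent.Helper50.BL.Base

/-!
Set systems with small pairwise intersections: module FKR.
-/

namespace Pool.Agent.Helper50.BL

open Finset
open scoped Classical

theorem fkr_net {V : Type} [Fintype V] (N : Net V) {β ζ : ℝ} (h : Kraft N β ζ) (x : V)
    (F : Finset N.ι) :
    ∑ a ∈ F, (if x ∈ isupp (N.φ a) then
      Real.exp (-(N.H a) + β * (#(isupp (N.φ a)) : ℝ)) else 0) ≤ ζ := by
  have h1 := h x F
  rw [Finset.sum_filter] at h1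
  refine le_trans (le_of_eq ?_) h1
  refine Finset.sum_congr rfl fun a _ => ?_
  simp [isupp]

theorem fkr_lab {V J : Type} [Fintype V] [DecidableEq V] [Fintype J] [DecidableEq J]
    (hI : ST_ITS) (S : J → Finset V) (Z : Finset J) (t : ℕ) (K κ β : ℝ) (hd : Deg S t)
    (hK : ∀ i ∈ Z, (#(S i) : ℝ) ≤ K) (hβ : 0 ≤ β) (hβK : β * K ≤ 1) (x : V)
    (F : Finset (J × ℤ)) :
    ∑ p ∈ F, (if x ∈ (if p.1 ∈ Z ∧ p.2 ≠ 0 then S p.1 else ∅) then
      Real.exp (-(cst κ p.2) + β * (#(if p.1 ∈ Z ∧ p.2 ≠ 0 then S p.1 else ∅) : ℝ)) else 0)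
      ≤ 6 * t * Real.exp (-κ) := by
  have h1 := hI V J S Z t K κ β hd hK hβ hβK x F
  rw [Finset.sum_filter] at h1
  exact h1

theorem st_FKR (h1 : ST_KPK) (h2 : ST_ITS) : ST_FKR := by
  intro V J _ _ _ _ N S Z t K κ β ζ hd hK hβ hβK hζ hκ hN hle x G
  have hex : 0 ≤ Real.exp (-κ) := (Real.exp_pos _).le
  have hz : 0 ≤ 2 * ζ + 12 * t * Real.exp (-κ) := by positivity
  have hkr : ∀ (x : V) (F : Finset (FPol N.ι J)),
      ∑ p ∈ F.filter (fun p => x ∈ fsup N.φ S Z p),
        Real.exp (-(fcost N.H κ p) + β * (#(fsup N.φ S Z p) : ℝ))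
        ≤ 2 * ζ + 12 * t * Real.exp (-κ) := by
    intro x F
    rw [Finset.sum_filter]
    rw [← Finset.toLeft_disjSum_toRight (u := F), Finset.sum_disjSum,
      ← Finset.toLeft_disjSum_toRight (u := F.toLeft), Finset.sum_disjSum,
      ← Finset.toLeft_disjSum_toRight (u := F.toRight), Finset.sum_disjSum]
    have a1 := fkr_net N hN x F.toLeft.toLeft
    have a2 := fkr_net N hN x F.toLeft.toRight
    have a3 := fkr_lab h2 S Z t K κ β hd hK hβ hβK x F.toRight.toLeft
    have a4 := fkr_lab h2 S Z t K κ β hd hK hβ hβK x F.toRight.toRight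
    refine le_trans (add_le_add (add_le_add
      (le_trans (le_of_eq (Finset.sum_congr rfl fun a _ => ?_)) a1)
      (le_trans (le_of_eq (Finset.sum_congr rfl fun a _ => ?_)) a2)) (add_le_add
      (le_trans (le_of_eq (Finset.sum_congr rfl fun p _ => ?_)) a3)
      (le_trans (le_of_eq (Finset.sum_congr rfl fun p _ => ?_)) a4))) (by linarith)
    · by_cases hx : x ∈ isupp (N.φ a)
      · rw [if_pos hx, if_pos (show x ∈ fsup N.φ S Z (Sum.inl (Sum.inl a)) from hx)]
        rfl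
      · rw [if_neg hx, if_neg (show ¬ x ∈ fsup N.φ S Z (Sum.inl (Sum.inl a)) from hx)]
    · by_cases hx : x ∈ isupp (N.φ a)
      · rw [if_pos hx, if_pos (show x ∈ fsup N.φ S Z (Sum.inl (Sum.inr a)) from hx)]
        rfl
      · rw [if_neg hx, if_neg (show ¬ x ∈ fsup N.φ S Z (Sum.inl (Sum.inr a)) from hx)]
    · by_cases hp : p.1 ∈ Z ∧ p.2 ≠ 0
      · simp only [fsup, fcost, if_pos hp]
      · simp only [fsup, fcost, if_neg hp]
    · by_cases hp : p.1 ∈ Z ∧ p.2 ≠ 0
      · simp only [fsup, fcost, if_pos hp]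
      · simp only [fsup, fcost, if_neg hp]
  have h3 := h1 V (FPol N.ι J) (fsup N.φ S Z) (fcost N.H κ) (fun x => {x}) 1 β
    (2 * ζ + 12 * t * Real.exp (-κ)) (fun x => Finset.mem_singleton_self x)
    (fun x y h => by
      rw [Finset.mem_singleton] at h ⊢
      exact h.symm)
    (fun x => by simp) hβ hz hkr (by linarith) x G
  rw [one_mul] at h3
  simp only [Finset.biUnion_singleton_eq_self] at h3
  exact h3

end Pool.Agent.Helper50.BL
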