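import Pool.Agent.Helper50.BL.Stmts
import Pool.Agent.Helper50.BL.Base

/-!
Set systems with small pairwise intersections: module INV.
-/

namespace Pool.Agent.Helper50.BL

open Finset
open scoped Classical

theorem st_INV : ST_INV := by
  intro V J _ _ _ _ S ξ dd Z0 δ η hδ hδ1 hη hη4 hpow hZd hov hst hst2 i j hij
  have hsub : stay ξ (S i) ∩ stay ξ (S j) ⊆ stay ξ (S i ∩ S j) := by
    intro x hx
    simp only [stay, Finset.mem_inter, Finset.mem_filter] at hx ⊢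
    exact ⟨⟨hx.1.1, hx.2.1⟩, hx.1.2⟩
  have hq' : (#(stay ξ (S i) ∩ stay ξ (S j)) : ℝ) ≤ (#(stay ξ (S i ∩ S j)) : ℝ) := by
    exact_mod_cast Finset.card_le_card hsub
  have hqq : (#(stay ξ (S i ∩ S j)) : ℝ) ≤ (#(S i ∩ S j) : ℝ) := by
    exact_mod_cast Finset.card_le_card (Finset.filter_subset _ _)
  by_cases hq : #(S i ∩ S j) ≤ dd
  · refine le_max_of_le_left ?_
    have : (#(S i ∩ S j) : ℝ) ≤ dd := by exact_mod_cast hq
    linarith
  · push Not at hq
    have hZq : Z0 ≤ #(S i ∩ S j) := by omega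
    have hqi : #(S i ∩ S j) ≤ #(S i) := Finset.card_le_card Finset.inter_subset_left
    have hqj : #(S i ∩ S j) ≤ #(S j) := Finset.card_le_card Finset.inter_subset_right
    have h1 := hst i (hZq.trans hqi)
    have h2 := hst j (hZq.trans hqj)
    have h3 := hst2 i j hij hZq
    have h4 : (#(S i ∩ S j) : ℝ) ≤ ((min (#(S i)) (#(S j)) : ℕ) : ℝ) ^ (1 - δ) := by
      rcases le_max_iff.1 (hov i j hij) with h | h
      · exfalso
        have : (dd : ℝ) < (#(S i ∩ S j) : ℝ) := by exact_mod_cast hq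
        linarith
      · exact h
    refine le_max_of_le_right ?_
    rw [abs_le] at h1 h2 h3
    have hm : (1 / 2 - η) * ((min (#(S i)) (#(S j)) : ℕ) : ℝ)
        ≤ ((min (#(stay ξ (S i))) (#(stay ξ (S j))) : ℕ) : ℝ) := by
      have ha : ((min (#(S i)) (#(S j)) : ℕ) : ℝ) ≤ (#(S i) : ℝ) := by
        exact_mod_cast min_le_left _ _
      have hb : ((min (#(S i)) (#(S j)) : ℕ) : ℝ) ≤ (#(S j) : ℝ) := by
        exact_mod_cast min_le_right _ _
      have hc : (0 : ℝ) ≤ 1 / 2 - η := by linarith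
      have ha' := mul_le_mul_of_nonneg_left ha hc
      have hb' := mul_le_mul_of_nonneg_left hb hc
      rw [Nat.cast_min (m := #(stay ξ (S i))), le_min_iff]
      constructor
      · nlinarith [h1.1]
      · nlinarith [h2.1]
    have hm0 : (0 : ℝ) ≤ ((min (#(S i)) (#(S j)) : ℕ) : ℝ) := Nat.cast_nonneg _
    have hc : (0 : ℝ) ≤ 1 / 2 - η := by linarith
    have he : (0 : ℝ) ≤ 1 - δ := by linarith
    calc (#(stay ξ (S i) ∩ stay ξ (S j)) : ℝ) ≤ (#(stay ξ (S i ∩ S j)) : ℝ) := hq'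
      _ ≤ (1 / 2 + η) * (#(S i ∩ S j) : ℝ) := by nlinarith [h3.2]
      _ ≤ (1 / 2 - η) ^ (1 - δ) * ((min (#(S i)) (#(S j)) : ℕ) : ℝ) ^ (1 - δ) := by
          refine mul_le_mul hpow h4 (Nat.cast_nonneg _) (Real.rpow_nonneg hc _)
      _ = ((1 / 2 - η) * ((min (#(S i)) (#(S j)) : ℕ) : ℝ)) ^ (1 - δ) := by
          rw [Real.mul_rpow hc hm0]
      _ ≤ ((min (#(stay ξ (S i))) (#(stay ξ (S j))) : ℕ) : ℝ) ^ (1 - δ) :=
          Real.rpow_le_rpow (mul_nonneg hc hm0) hm he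

end Pool.Agent.Helper50.BL
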