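import Pool.Agent.Helper50.BL.Stmts
import Pool.Agent.Helper50.BL.Base

/-!
Set systems with small pairwise intersections: module QFC.
-/

namespace Pool.Agent.Helper50.BL

open Finset
open scoped Classical

theorem qfc_img {J : Type} [Fintype J] [DecidableEq J] (r : J → ℤ) (f : J × ℤ → ℤ) :
    ∑ p ∈ (univ : Finset J).image (fun i => (i, r i)), f p = ∑ i, f (i, r i) := by
  rw [Finset.sum_image]
  intro a _ b _ h
  exact (Prod.mk.inj h).1

theorem qfc_img' {J : Type} [Fintype J] [DecidableEq J] (r : J → ℤ) (f : J × ℤ → ℝ) :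
    ∑ p ∈ (univ : Finset J).image (fun i => (i, r i)), f p = ∑ i, f (i, r i) := by
  rw [Finset.sum_image]
  intro a _ b _ h
  exact (Prod.mk.inj h).1

theorem st_QFC : ST_QFC := by
  intro V J _ _ _ _ N κ F F' r r'
  refine ⟨(F.disjSum F').disjSum ((univ.image (fun i => (i, r i))).disjSum
    (univ.image (fun i => (i, r' i)))), ?_, ?_, ?_, ?_, ?_⟩
  · intro x
    rw [Finset.sum_disjSum, Finset.sum_disjSum, Finset.sum_disjSum]
    simp [fΦ1]
  · intro x
    rw [Finset.sum_disjSum, Finset.sum_disjSum, Finset.sum_disjSum]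
    simp [fΦ2]
  · intro i
    rw [Finset.sum_disjSum, Finset.sum_disjSum, Finset.sum_disjSum, qfc_img, qfc_img]
    simp [fr1]
  · intro i
    rw [Finset.sum_disjSum, Finset.sum_disjSum, Finset.sum_disjSum, qfc_img, qfc_img]
    simp [fr2]
  · rw [Finset.sum_disjSum, Finset.sum_disjSum, Finset.sum_disjSum, qfc_img', qfc_img']
    simp only [fcost]
    ring

end Pool.Agent.Helper50.BL
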